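import Pool.Agent.Lib.MP_42043b_gt.Defs

/-! Dilation structures on a gluing pattern of triangles, and their cone angles. -/

namespace Pool.Agent.FS.Dil42

open Pool.Agent.Lib.MP_42043b_gt

variable {E : Type}

/-- Edge vectors of Euclidean triangles whose glued sides are parallel and opposite; the sides are
glued by maps `z ↦ t z + c` with `t > 0`. -/
structure Dil (σ ι : E → E) (v : E → ℂ) : Prop where
  sum : ∀ e, v e + v (σ e) + v (σ (σ e)) = 0
  pos : ∀ e, 0 < cr (v e) (v (σ e))
  par : ∀ e, ∃ t : ℝ, 0 < t ∧ v (ι e) = -(t * v e)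

/-- The total angle at the vertex where the side `e` starts: the sum of the angles of the triangle
corners met by turning once around that vertex. -/
noncomputable def cone (σ ι : E → E) (v : E → ℂ) (e : E) : ℝ :=
  ∑ k ∈ Finset.range (Function.minimalPeriod (fun x => ι (σ (σ x))) e),
    Complex.arg (-v (σ (σ ((fun x => ι (σ (σ x)))^[k] e))) / v ((fun x => ι (σ (σ x)))^[k] e))

end Pool.Agent.FS.Dil42
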