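import Mathlib

/-! Moving a separating line from one triple of geometric progressions to another. -/

namespace Pool.Agent.FS.Dil42

theorem trans_pos {l l' c : ℝ} (hl : 1 < l) (hl' : 1 < l') (hc : 0 < c) {w w' f : Fin 3 → ℝ}
    (hw : ∀ j, 0 < w j) (hw' : ∀ j, 0 < w' j) (hf : ∑ j, w j * f j = 0) :
    ∃ f' : Fin 3 → ℝ, ∑ j, w' j * f' j = 0 ∧ ∀ (m : ℤ) j,
      (l ^ m * f j < c → l' ^ m * f' j < 1) ∧ (c < l ^ m * f j → 1 < l' ^ m * f' j) := by
  set ρ := Real.log l' / Real.log l with hρ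
  have l0 : 0 < l := by linarith
  have l0' : 0 < l' := by linarith
  have g0 := Real.log_pos hl
  have ρ0 : 0 < ρ := div_pos (Real.log_pos hl') g0
  have hll : l ^ ρ = l' := by
    rw [Real.rpow_def_of_pos l0, hρ, mul_div_cancel₀ _ g0.ne', Real.exp_log l0']
  set g : Fin 3 → ℝ := fun j => (max (f j) 0 / c) ^ ρ with hg
  set S := ∑ j, w' j * g j with hS
  set T := ∑ j, w' j * max (-f j) 0 with hT
  have gn : ∀ j, 0 ≤ g j := fun j => Real.rpow_nonneg (div_nonneg (le_max_right _ _) hc.le) _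
  have S0 : 0 ≤ S := Finset.sum_nonneg fun j _ => mul_nonneg (hw' j).le (gn j)
  have T0 : 0 ≤ T := Finset.sum_nonneg fun j _ => mul_nonneg (hw' j).le (le_max_right _ _)
  have gz : ∀ j, f j ≤ 0 → g j = 0 := fun j h => by
    simp only [hg, max_eq_right h, zero_div, Real.zero_rpow ρ0.ne']
  have hST : T = 0 → S = 0 := fun h => by
    have h1 := (Finset.sum_eq_zero_iff_of_nonneg
      fun j _ => mul_nonneg (hw' j).le (le_max_right (-f j) 0)).1 h
    have h2 : ∀ j, 0 ≤ f j := fun j => by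
      have := (mul_eq_zero.1 (h1 j (Finset.mem_univ j))).resolve_left (hw' j).ne'
      have h3 := le_max_left (-f j) 0
      linarith
    have h3 := (Finset.sum_eq_zero_iff_of_nonneg
      fun j _ => mul_nonneg (hw j).le (h2 j)).1 hf
    refine Finset.sum_eq_zero fun j _ => ?_
    rw [gz j ((mul_eq_zero.1 (h3 j (Finset.mem_univ j))).resolve_left (hw j).ne').le, mul_zero]
  refine ⟨fun j => g j - S / T * max (-f j) 0, ?_, fun m j => ?_⟩
  · have : ∑ j, w' j * (g j - S / T * max (-f j) 0) = S - S / T * T := by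
      rw [hS, hT, Finset.mul_sum, ← Finset.sum_sub_distrib]
      exact Finset.sum_congr rfl fun j _ => by ring
    rw [this]
    by_cases h : T = 0
    · rw [hST h]; simp
    · field_simp; ring
  · have p1 := zpow_pos l0 m
    have p2 := zpow_pos l0' m
    rcases le_or_gt (f j) 0 with h | h
    · have h1 : l ^ m * f j ≤ 0 := mul_nonpos_of_nonneg_of_nonpos p1.le h
      have h2 : 0 ≤ S / T * max (-f j) 0 := mul_nonneg (div_nonneg S0 T0) (le_max_right _ _)
      refine ⟨fun _ => ?_, fun h3 => by linarith⟩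
      show l' ^ m * (g j - S / T * max (-f j) 0) < 1
      rw [gz j h]
      nlinarith
    · have h1 : l' ^ m * (g j - S / T * max (-f j) 0) = (l ^ m * f j / c) ^ ρ := by
        rw [max_eq_right (by linarith), mul_zero, sub_zero, mul_div_assoc,
          Real.mul_rpow p1.le (div_pos h hc).le, ← hll, ← Real.rpow_intCast, ← Real.rpow_intCast,
          ← Real.rpow_mul l0.le, ← Real.rpow_mul l0.le, mul_comm ρ]
        simp only [hg, max_eq_left h.le]
      show (_ → l' ^ m * (g j - S / T * max (-f j) 0) < 1) ∧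
        (_ → 1 < l' ^ m * (g j - S / T * max (-f j) 0))
      rw [h1]
      exact ⟨fun h2 => Real.rpow_lt_one (div_pos (mul_pos p1 h) hc).le ((div_lt_one hc).2 h2) ρ0,
        fun h2 => Real.one_lt_rpow ((one_lt_div hc).2 h2) ρ0⟩

theorem trans_all {l l' : ℝ} (c : ℝ) (hl : 1 < l) (hl' : 1 < l') {w w' f : Fin 3 → ℝ}
    (hw : ∀ j, 0 < w j) (hw' : ∀ j, 0 < w' j) (hf : ∑ j, w j * f j = 0) :
    ∃ (f' : Fin 3 → ℝ) (c' : ℝ), ∑ j, w' j * f' j = 0 ∧ ∀ (m : ℤ) j,
      (l ^ m * f j < c → l' ^ m * f' j < c') ∧ (c < l ^ m * f j → c' < l' ^ m * f' j) := by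
  rcases lt_trichotomy c 0 with h | rfl | h
  · obtain ⟨f', h1, h2⟩ := trans_pos (c := -c) (f := fun j => -f j) hl hl' (by linarith) hw hw'
      (by simp only [mul_neg, Finset.sum_neg_distrib, hf, neg_zero])
    refine ⟨fun j => -f' j, -1, by simp only [mul_neg, Finset.sum_neg_distrib, h1, neg_zero],
      fun m j => ⟨fun h3 => ?_, fun h3 => ?_⟩⟩
    · have := (h2 m j).2 (by linarith)
      linarith
    · have := (h2 m j).1 (by linarith)
      linarith
  · refine ⟨fun j => w j * f j / w' j, 0, ?_, fun m j => ?_⟩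
    · rw [← hf]
      exact Finset.sum_congr rfl fun j _ => mul_div_cancel₀ _ (hw' j).ne'
    · have p1 := zpow_pos (by linarith : 0 < l) m
      have p2 := zpow_pos (by linarith : 0 < l') m
      refine ⟨fun h => ?_, fun h => ?_⟩
      · have : f j < 0 := by by_contra h'; push Not at h'; nlinarith [mul_nonneg p1.le h']
        exact mul_neg_of_pos_of_neg p2 (div_neg_of_neg_of_pos (mul_neg_of_pos_of_neg (hw j) this)
          (hw' j))
      · exact mul_pos p2 (div_pos (mul_pos (hw j) ((mul_pos_iff_of_pos_left p1).1 h)) (hw' j))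
  · obtain ⟨f', h1, h2⟩ := trans_pos hl hl' h hw hw' hf
    exact ⟨f', 1, h1, h2⟩

theorem arg_three {x y z : ℂ} (hx : 0 < x.im) (hy : 0 < y.im) (hz : 0 < z.im) {r : ℝ} (hr : 0 < r)
    (h : x * y * z = -r) : x.arg + y.arg + z.arg = Real.pi := by
  have ne : ∀ {a : ℂ}, 0 < a.im → a ≠ 0 := fun ha h0 => by simp [h0] at ha
  have lo : ∀ {a : ℂ}, 0 < a.im → 0 < a.arg := fun {a} ha =>
    lt_of_le_of_ne (Complex.arg_nonneg_iff.2 ha.le) fun h0 =>
      ha.ne' (Complex.arg_eq_zero_iff.1 h0.symm).2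
  have hi : ∀ {a : ℂ}, 0 < a.im → a.arg < Real.pi := fun {a} ha =>
    Complex.arg_lt_pi_iff.2 (Or.inr ha.ne')
  have h1 : ((x.arg + y.arg + z.arg : ℝ) : Real.Angle) = (Real.pi : ℝ) := by
    rw [Real.Angle.coe_add, Real.Angle.coe_add, ← Complex.arg_mul_coe_angle (ne hx) (ne hy),
      ← Complex.arg_mul_coe_angle (mul_ne_zero (ne hx) (ne hy)) (ne hz), h,
      ← Complex.ofReal_neg, Complex.arg_ofReal_of_neg (by linarith)]
  obtain ⟨k, hk⟩ := Real.Angle.angle_eq_iff_two_pi_dvd_sub.1 h1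
  have a1 := lo hx; have a2 := lo hy; have a3 := lo hz
  have b1 := hi hx; have b2 := hi hy; have b3 := hi hz
  have pp := Real.pi_pos
  have k1 : (-1 : ℝ) < k := by by_contra h'; push Not at h'; nlinarith
  have k2 : (k : ℝ) < 1 := by by_contra h'; push Not at h'; nlinarith
  have k0 : k = 0 := by
    have : (-1 : ℤ) < k := by exact_mod_cast k1
    have : k < 1 := by exact_mod_cast k2
    omega
  rw [k0] at hk
  simp only [Int.cast_zero, mul_zero] at hk
  linarith

end Pool.Agent.FS.Dil42
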