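import Pool.Agent.FS.Dil42.Defs
import Pool.Agent.FS.Dil42.Trans
import Pool.Agent.Lib.MP_42043b_gt.Basic

/-! A cyclic triple cover of a Hopf torus, branched over three marked points. -/

namespace Pool.Agent.FS.Dil42

open Pool.Agent.Lib.MP_42043b_gt

/-- Sheet, sector, side. -/
abbrev Dt := Fin 3 × Fin 3 × Fin 6

def sg (e : Dt) : Dt := (e.1, e.2.1, ![1, 2, 0, 4, 5, 3] e.2.2)

def io (e : Dt) : Dt :=
  ![(e.1, e.2.1 + 2, 4), (e.1 + e.2.1, e.2.1, 5), (e.1, e.2.1, 3), (e.1, e.2.1, 2),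
    (e.1, e.2.1 + 1, 0), (e.1 - e.2.1, e.2.1, 1)] e.2.2

def row (e : Dt) : Fin 3 := e.2.1 + ![0, 0, 1, 0, 1, 1] e.2.2

def hn (e : Dt) : ℕ := ![0, 1, 0, 1, 1, 0] e.2.2

def dd (e : Dt) : ℤ := ![0, 0, -1, 1, 0, 0] e.2.2

theorem sg3 : ∀ e, sg (sg (sg e)) = e := by decide +kernel
theorem io2 : ∀ e, io (io e) = e ∧ io e ≠ e := by decide +kernel
theorem glue : ∀ e, row (io e) = row (sg e) ∧ (hn (io e) : ℤ) + dd e = hn (sg e) ∧
    row (sg (io e)) = row e ∧ (hn (sg (io e)) : ℤ) + dd e = hn e := by decide +kernel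
theorem per : ∀ e, (fun x => io (sg (sg x)))^[18] e = e ∧
    ∀ k ∈ Finset.range 18, (fun x => io (sg (sg x)))^[k] e = e → k = 0 := by decide +kernel
theorem orb_eq : ∀ e, (Finset.range 18).image (fun k => (fun x => io (sg (sg x)))^[k] e) =
    Finset.univ.filter fun x => row x = row e := by decide +kernel
theorem orb_card : ∀ j, (Finset.univ.filter fun x : Dt => row x = j).card = 18 := by
  decide +kernel

theorem minper (e : Dt) : Function.minimalPeriod (fun x => io (sg (sg x))) e = 18 := by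
  have h := per e
  have h1 : Function.IsPeriodicPt (fun x => io (sg (sg x))) 18 e := h.1
  have h2 := h1.minimalPeriod_le (by norm_num)
  have h3 := h1.minimalPeriod_pos (by norm_num)
  by_contra hne
  exact h3.ne' (h.2 _ (Finset.mem_range.2 (lt_of_le_of_ne h2 hne))
    (Function.isPeriodicPt_minimalPeriod _ e))

theorem conn (e e' : Dt) : Relation.ReflTransGen (fun x y => y = sg x ∨ y = io x) e e' := by
  set R := Relation.ReflTransGen (fun x y : Dt => y = sg x ∨ y = io x) with hR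
  have a1 : ∀ x, R x (sg x) := fun x => Relation.ReflTransGen.single (Or.inl rfl)
  have a2 : ∀ x, R x (io x) := fun x => Relation.ReflTransGen.single (Or.inr rfl)
  have a3 : ∀ k x, R x ((fun x => io (sg (sg x)))^[k] x) := fun k x => by
    induction k with
    | zero => exact Relation.ReflTransGen.refl
    | succ k ih =>
      rw [Function.iterate_succ_apply']
      exact ih.trans (((a1 _).trans (a1 _)).trans (a2 _))
  have a4 : ∀ x y, row y = row x → R x y := fun x y h => by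
    have : y ∈ (Finset.range 18).image (fun k => (fun x => io (sg (sg x)))^[k] x) := by
      rw [orb_eq]; simpa using h
    obtain ⟨k, -, rfl⟩ := Finset.mem_image.1 this
    exact a3 k x
  have a5 : ∀ x y, row y = row x + 1 → R x y := fun x y h =>
    ((a4 x (0, row x, 1) (by simp [row])).trans (a1 _)).trans
      (a4 _ _ (by rw [h]; simp [row, sg]))
  have a6 : ∀ i j : Fin 3, j = i ∨ j = i + 1 ∨ j = i + 1 + 1 := by decide
  rcases a6 (row e) (row e') with h | h | h
  · exact a4 _ _ h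
  · exact a5 _ _ h
  · exact (a5 e (0, row e + 1, 1) (by simp [row])).trans (a5 _ _ (by rw [h]; simp [row]))

/-- The three marked points. -/
noncomputable def mu (s : ℝ × ℝ × ℝ) : Fin 3 → ℂ := ![1, Complex.I, -(s.2.1 + s.2.2 * Complex.I)]

noncomputable def pt (s : ℝ × ℝ × ℝ) (m : ℤ) (e : Dt) : ℂ :=
  (s.1 : ℂ) ^ (m + hn e) * mu s (row e)

noncomputable def V (s : ℝ × ℝ × ℝ) (e : Dt) : ℂ :=
  (s.1 : ℂ) ^ hn (sg e) * mu s (row (sg e)) - (s.1 : ℂ) ^ hn e * mu s (row e)

def Ok (s : ℝ × ℝ × ℝ) : Prop := 1 < s.1 ∧ 0 < s.2.1 ∧ 0 < s.2.2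

theorem V_cont : Continuous V := by
  have hμ : ∀ j, Continuous fun s => mu s j := by
    intro j
    fin_cases j <;> simp [mu] <;> fun_prop
  refine continuous_pi fun e => ?_
  have := hμ (row e)
  have := hμ (row (sg e))
  unfold V
  fun_prop

theorem Ok.ne {s : ℝ × ℝ × ℝ} (h : Ok s) : (s.1 : ℂ) ≠ 0 :=
  Complex.ofReal_ne_zero.2 (by linarith [h.1])

theorem pt_sub {s : ℝ × ℝ × ℝ} (h : Ok s) (m : ℤ) (e : Dt) :
    pt s m (sg e) - pt s m e = (s.1 : ℂ) ^ m * V s e := by
  simp only [pt, V, zpow_add₀ h.ne, zpow_natCast]; ring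

theorem pt_io (s : ℝ × ℝ × ℝ) (m : ℤ) (e : Dt) :
    pt s (m + dd e) (io e) = pt s m (sg e) ∧ pt s (m + dd e) (sg (io e)) = pt s m e := by
  obtain ⟨h1, h2, h3, h4⟩ := glue e
  simp only [pt, h1, h3, ← h2, ← h4]
  constructor <;> congr 2 <;> ring

theorem cr_mu {s : ℝ × ℝ × ℝ} (h : Ok s) (j : Fin 3) : 0 < cr (mu s j) (mu s (j + 1)) := by
  have := h.2.1
  have := h.2.2
  fin_cases j <;> simp [mu, cr] <;> assumption

theorem V_pos {s : ℝ × ℝ × ℝ} (h : Ok s) (e : Dt) : 0 < cr (V s e) (V s (sg e)) := by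
  obtain ⟨i, j, t⟩ := e
  have h1 := cr_mu h j
  have h2 : 0 < s.1 - 1 := by linarith [h.1]
  have h3 : 0 < s.1 := by linarith
  have h4 := mul_pos h2 h1
  have h5 := mul_pos h3 h4
  unfold cr at *
  fin_cases t <;> simp [V, sg, row, hn] <;> nlinarith

theorem V_dil {s : ℝ × ℝ × ℝ} (h : Ok s) : Dil sg io (V s) := by
  refine ⟨fun e => ?_, V_pos h, fun e => ?_⟩
  · simp only [V, sg3]; ring
  · have h1 := pt_sub h (0 + dd e) (io e)
    rw [(pt_io s 0 e).1, (pt_io s 0 e).2] at h1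
    have h2 := pt_sub h 0 e
    have h3 : (s.1 : ℂ) ^ (0 + dd e) ≠ 0 := zpow_ne_zero _ h.ne
    refine ⟨(s.1 ^ (0 + dd e))⁻¹, inv_pos.2 (zpow_pos (by linarith [h.1]) _), ?_⟩
    push_cast
    rw [zpow_zero, one_mul] at h2
    field_simp
    linear_combination -h1 - h2

theorem V_ne {s : ℝ × ℝ × ℝ} (h : Ok s) (e : Dt) : V s e ≠ 0 := fun h0 => by
  have := V_pos h e
  simp [h0, cr] at this

/-- The placed side at a given level. -/
noncomputable def pl (s : ℝ × ℝ × ℝ) (β : ℂ) (x : Dt × ℤ) : Dt × ℂ × ℂ :=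
  (x.1, pt s x.2 x.1 + β, pt s x.2 (sg x.1) + β)

def cs (b : Bool) (x : Dt × ℤ) : Dt × ℤ :=
  if b then (io (sg x.1), x.2 + dd (sg x.1)) else (io (sg (sg x.1)), x.2 + dd (sg (sg x.1)))

def cw (x : Dt × ℤ) (b : ℕ → Bool) : ℕ → Dt × ℤ
  | 0 => x
  | k + 1 => cs (b k) (cw x b k)

theorem step_pl {s : ℝ × ℝ × ℝ} (h : Ok s) (β : ℂ) (b : Bool) (x : Dt × ℤ) :
    step sg io (V s) b (pl s β x) = pl s β (cs b x) := by
  have h3 : third sg (V s) (pl s β x) = pt s x.2 (sg (sg x.1)) + β := by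
    have h1 := pt_sub h x.2 x.1
    have h2 := pt_sub h x.2 (sg x.1)
    have h0 := V_ne h x.1
    simp only [third, pl, add_sub_add_right_eq_sub, h1, mul_div_cancel_right₀ _ h0]
    linear_combination -h2
  rw [step, h3]
  cases b
  · simp only [cs, pl, Bool.false_eq_true, if_false, (pt_io s x.2 _).1, (pt_io s x.2 _).2, sg3]
  · simp only [cs, pl, if_true, (pt_io s x.2 _).1, (pt_io s x.2 _).2]

theorem dev_pl {s : ℝ × ℝ × ℝ} (h : Ok s) (e : Dt) (b : ℕ → Bool) (k : ℕ) :
    dev sg io (V s) (e, 0, V s e) b k = pl s (-pt s 0 e) (cw (e, 0) b k) := by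
  induction k with
  | zero =>
    have := pt_sub h 0 e
    rw [zpow_zero, one_mul] at this
    simp only [dev, cw, pl, add_neg_cancel, ← sub_eq_add_neg, this]
  | succ k ih => rw [dev, ih, step_pl h, cw]

theorem cr_pt (u : ℂ) (s : ℝ × ℝ × ℝ) (m : ℤ) (e : Dt) :
    cr u (pt s m e) = s.1 ^ (m + hn e) * cr u (mu s (row e)) := by
  rw [pt, ← Complex.ofReal_zpow]
  simp only [cr, Complex.re_ofReal_mul, Complex.im_ofReal_mul]
  ring

theorem cuts_imp {s s' : ℝ × ℝ × ℝ} (h : Ok s) (h' : Ok s') (e : Dt) (b : ℕ → Bool) (n : ℕ) :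
    Cuts sg io (V s) e b n → Cuts sg io (V s') e b n := by
  rintro ⟨u, c, H⟩
  have hw : ∀ {s : ℝ × ℝ × ℝ}, Ok s → ∀ j, 0 < ![s.2.1, s.2.2, 1] j := fun h j => by
    have := h.2.1
    have := h.2.2
    fin_cases j <;> simp <;> assumption
  obtain ⟨f', c', h1, h2⟩ := trans_all (c - cr u (-pt s 0 e)) h.1 h'.1 (hw h) (hw h')
    (f := fun j => cr u (mu s j)) (by simp [Fin.sum_univ_three, mu, cr]; ring)
  have h3 : ∀ j, cr ⟨f' 1, -f' 0⟩ (mu s' j) = f' j := fun j => by
    simp only [Fin.sum_univ_three, Matrix.cons_val_zero, Matrix.cons_val_one, Matrix.cons_val] at h1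
    fin_cases j <;> simp [mu, cr]
    linarith
  refine ⟨⟨f' 1, -f' 0⟩, c' + cr ⟨f' 1, -f' 0⟩ (-pt s' 0 e), fun k hk => ?_⟩
  have h4 := H k hk
  rw [dev_pl h] at h4
  rw [dev_pl h']
  simp only [pl, cr_add, cr_pt] at h4
  simp only [pl, cr_add, cr_pt _ s' (cw (e, 0) b k).2, h3]
  have h5 := (h2 ((cw (e, 0) b k).2 + hn (sg (cw (e, 0) b k).1)) (row (sg (cw (e, 0) b k).1))).1
    (by linarith [h4.1])
  have h6 := (h2 ((cw (e, 0) b k).2 + hn (cw (e, 0) b k).1) (row (cw (e, 0) b k).1)).2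
    (by linarith [h4.2])
  constructor <;> linarith

theorem cone_V {s : ℝ × ℝ × ℝ} (h : Ok s) (e : Dt) : cone sg io (V s) e = 6 * Real.pi := by
  set F : Dt → ℝ := fun x => Complex.arg (-V s (sg (sg x)) / V s x) with hF
  have e1 : cone sg io (V s) e = ∑ x ∈ Finset.univ.filter (fun x => row x = row e), F x := by
    rw [cone, minper, ← orb_eq, Finset.sum_image]
    apply Finset.injOn_of_card_image_eq
    rw [orb_eq, orb_card, Finset.card_range]
  have im : ∀ x, 0 < (-V s (sg (sg x)) / V s x).im := fun x => by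
    have a1 := (V_dil h).sum x
    have a2 := V_pos h x
    have a3 := Complex.normSq_pos.2 (V_ne h x)
    rw [show -V s (sg (sg x)) = V s x + V s (sg x) by linear_combination -a1, Complex.div_im,
      ← sub_div]
    refine div_pos ?_ a3
    unfold cr at a2
    simp only [Complex.add_im, Complex.add_re]
    linarith
  have l0 : 0 < s.1 := by linarith [h.1]
  have ne := h.ne
  have r1 : ∀ i j, V s (i, j, 5) = -V s (i, j, 1) := fun i j => by simp [V, sg, row, hn]
  have r2 : ∀ i j, V s (i, j, 3) = -(s.1 * V s (i, j, 2)) := fun i j => by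
    simp [V, sg, row, hn]; ring
  have hL : ∀ i j, F (i, j, 0) + F (i, j, 1) + F (i, j, 3) = Real.pi := fun i j => by
    refine arg_three (im _) (im _) (im _) (inv_pos.2 l0) ?_
    have n0 := V_ne h (i, j, 0)
    have n1 := V_ne h (i, j, 1)
    have n2 := V_ne h (i, j, 2)
    show -V s (i, j, 2) / V s (i, j, 0) * (-V s (i, j, 0) / V s (i, j, 1)) *
      (-V s (i, j, 5) / V s (i, j, 3)) = _
    rw [r1, r2]
    push_cast
    field_simp
  have hR : ∀ i j, F (i, j, 2) + F (i, j, 4) + F (i, j, 5) = Real.pi := fun i j => by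
    refine arg_three (im _) (im _) (im _) l0 ?_
    have n0 := V_ne h (i, j, 4)
    have n1 := V_ne h (i, j, 1)
    have n2 := V_ne h (i, j, 2)
    show -V s (i, j, 1) / V s (i, j, 2) * (-V s (i, j, 3) / V s (i, j, 4)) *
      (-V s (i, j, 4) / V s (i, j, 5)) = _
    rw [r1, r2]
    field_simp
  rw [e1, Finset.sum_filter]
  generalize row e = j
  simp only [Fintype.sum_prod_type, Fin.sum_univ_three, Fin.sum_univ_six]
  fin_cases j <;> simp [row] <;>
    linarith [hL 0 0, hL 0 1, hL 0 2, hL 1 0, hL 1 1, hL 1 2, hL 2 0, hL 2 1, hL 2 2,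
      hR 0 0, hR 0 1, hR 0 2, hR 1 0, hR 1 1, hR 1 2, hR 2 0, hR 2 1, hR 2 2]

theorem inj {s s' : ℝ × ℝ × ℝ} (h : Ok s) (h' : Ok s') (A : ℂ →ₗ[ℝ] ℂ)
    (H : ∀ (b : ℕ → Bool) (k : ℕ),
      A (dev sg io (V s) ((0, 0, 0), 0, V s (0, 0, 0)) b k).2.1 =
        (dev sg io (V s') ((0, 0, 0), 0, V s' (0, 0, 0)) b k).2.1 ∧
      A (dev sg io (V s) ((0, 0, 0), 0, V s (0, 0, 0)) b k).2.2 =
        (dev sg io (V s') ((0, 0, 0), 0, V s' (0, 0, 0)) b k).2.2) : s = s' := by
  have a0 := (H (fun _ => true) 0).2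
  have a1 := (H (fun _ => true) 1).1
  have a3 := (H (fun _ => true) 3).1
  have a4 := (H (fun _ => true) 4).1
  rw [dev_pl h, dev_pl h'] at a0 a1 a3 a4
  have c0 : cw ((0, 0, 0), 0) (fun _ => true) 0 = ((0, 0, 0), 0) := rfl
  have c1 : cw ((0, 0, 0), 0) (fun _ => true) 1 = ((0, 0, 5), 0) := by decide +kernel
  have c3 : cw ((0, 0, 0), 0) (fun _ => true) 3 = ((0, 2, 4), 1) := by decide +kernel
  have c4 : cw ((0, 0, 0), 0) (fun _ => true) 4 = ((1, 2, 1), 1) := by decide +kernel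
  rw [c0] at a0; rw [c1] at a1; rw [c3] at a3; rw [c4] at a4
  obtain ⟨l, a, b⟩ := s
  obtain ⟨l', a', b'⟩ := s'
  have key : ∀ z : ℂ, A z = z.re * A 1 + z.im * A Complex.I := fun z => by
    conv_lhs => rw [show z = z.re • (1 : ℂ) + z.im • Complex.I by
      simp [Complex.re_add_im]]
    rw [map_add, map_smul, map_smul]
    simp
  rw [key] at a0 a1 a3 a4
  generalize A 1 = x at *
  generalize A Complex.I = y at *
  have p1 : 1 < l := h.1
  have p2 : 1 < l' := h'.1
  simp [pl, pt, sg, row, hn, mu, Complex.ext_iff, zpow_ofNat, sq] at a0 a1 a3 a4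
  have x2 : x.im = 0 := a0.2.resolve_left (by linarith)
  have ll : l = l' := by
    have : (l' - 1) * (l - l') = 0 := by linear_combination a3.1 - (l + 1) * a0.1
    linarith [(mul_eq_zero.1 this).resolve_left (by linarith)]
  subst ll
  have x1 : x.re = 1 := by
    have : (l - 1) * (x.re - 1) = 0 := by linear_combination a0.1
    linarith [(mul_eq_zero.1 this).resolve_left (by linarith)]
  have y1 : y.re = 0 := by linarith [a1.1]
  have y2 : y.im = 1 := by linarith [a1.2]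
  rw [x1, x2, y1, y2] at a4
  have l2 : l * l ≠ 0 := by positivity
  rw [mul_left_cancel₀ l2 (show l * l * a = l * l * a' by linarith [a4.1]),
    mul_left_cancel₀ l2 (show l * l * b = l * l * b' by linarith [a4.2])]

theorem cuts_exists {E : Type} (σ ι : E → E) {v : E → ℂ} {e : E} (he : v e ≠ 0) (n : ℕ) :
    ∃ b, Cuts σ ι v e b n := by
  induction n with
  | zero =>
    refine ⟨fun _ => true, Complex.I * v e, -Complex.normSq (v e) / 2, fun k hk => ?_⟩
    have := Complex.normSq_pos.2 he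
    rw [Nat.le_zero.1 hk]
    simp only [Complex.normSq_apply] at this
    simp [dev, cr, Complex.normSq_apply]
    constructor <;> linarith
  | succ n ih =>
    obtain ⟨b, u, c, H⟩ := ih
    have op : {c' : ℝ | ∀ k ∈ Finset.range (n + 1), cr u (dev σ ι v (e, 0, v e) b k).2.2 < c' ∧
        c' < cr u (dev σ ι v (e, 0, v e) b k).2.1} ∈ nhds c :=
      (Filter.eventually_all_finset _).2 fun k hk =>
        Ioo_mem_nhds (H k (Nat.lt_succ_iff.1 (Finset.mem_range.1 hk))).1
          (H k (Nat.lt_succ_iff.1 (Finset.mem_range.1 hk))).2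
    obtain ⟨c', h1, h2⟩ := (infinite_of_mem_nhds c op).exists_notMem_finset
      {cr u (third σ v (dev σ ι v (e, 0, v e) b n))}
    rw [Finset.mem_singleton] at h2
    set β := decide (c' < cr u (third σ v (dev σ ι v (e, 0, v e) b n))) with hβ
    have h3 : ∀ k ≤ n, dev σ ι v (e, 0, v e) (Function.update b n β) k =
        dev σ ι v (e, 0, v e) b k := fun k hk =>
      dev_congr _ fun i hi => Function.update_of_ne (by omega) _ _
    refine ⟨Function.update b n β, u, c', fun k hk => ?_⟩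
    rcases Nat.lt_or_ge k (n + 1) with h | h
    · rw [h3 k (by omega)]
      exact h1 k (Finset.mem_range.2 h)
    · obtain rfl : k = n + 1 := by omega
      have h4 := h1 n (Finset.self_mem_range_succ n)
      rw [dev, h3 n le_rfl, Function.update_self, step]
      by_cases h5 : c' < cr u (third σ v (dev σ ι v (e, 0, v e) b n))
      · rw [if_pos (by rw [hβ]; exact decide_eq_true h5)]
        exact ⟨h4.1, h5⟩
      · rw [if_neg (by rw [hβ]; simpa using h5)]
        exact ⟨lt_of_le_of_ne (not_lt.1 h5) (Ne.symm h2), h4.2⟩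

end Pool.Agent.FS.Dil42
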